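import Pool.Agent.Lib.MP_531aff_lc.Reduction

/-!
If there are `𝔠` many reals such that every real is infinitely often equal to only countably many
of them, then `𝔡(≠*_J)` and `𝔟(≠*_I)` are equal to two combinatorial cardinals. In particular
`𝔟(≠*_I) > 𝔡(≠*_J)` is equivalent to an inequality between these.
-/

open Cardinal Set Ordinal

namespace Pool.Agent.Results.MP_531aff_lc.CombinatorialForm

open Pool.Agent.MP531

theorem result (I J : Set (Set (ℕ → ℕ))) (hI : IsNMK I) (hJ : IsNMK J)
    (r : (ℕ → ℕ) → (ℕ → ℕ)) (hr : ∀ z, {y | ¬ EvDiff z (r y)}.Countable) :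
    dNum (NeMod J) = avoidNum ∧ bNum (NeMod I) = catchNum I :=
  ⟨dNum_eq_avoidNum r hr hJ, bNum_eq_catchNum r hr hI⟩

end Pool.Agent.Results.MP_531aff_lc.CombinatorialForm
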