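import Pool.Agent.Lib.MP_531aff_lc.Guess

/-!
If `𝔠 ≤ cov(M)⁺` then `𝔟(≠*_I) ≤ 𝔡(≠*_J)` for all the ideals `I, J` in question.
-/

open Cardinal Set Ordinal

namespace Pool.Agent.Results.MP_531aff_lc.LargeCovering

open Pool.Agent.MP531

theorem result (I J : Set (Set (ℕ → ℕ))) (hI : IsNMK I) (hJ : IsNMK J)
    (h : 𝔠 ≤ Order.succ covMeager) : bNum (NeMod I) ≤ dNum (NeMod J) :=
  le_of_continuum_le_cov hI.good hJ.good hJ.empty_mem h

end Pool.Agent.Results.MP_531aff_lc.LargeCovering
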