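import Pool.Agent.Lib.MP_531aff_lc.Strict

/-!
A sufficient condition for `𝔟(≠*_M) > 𝔡(≠*_J)`.
-/

open Cardinal Set Ordinal

namespace Pool.Agent.Results.MP_531aff_lc.StrictInequality

open Pool.Agent.MP531

theorem result (J : Set (Set (ℕ → ℕ))) (hJ : IsNMK J)
    (r : (ℕ → ℕ) → (ℕ → ℕ)) (hr : ∀ z, {y | ¬ EvDiff z (r y)}.Countable)
    (H : Set (KT 𝔠 → KT 𝔠)) (hdom : ∀ f : KT 𝔠 → KT 𝔠, ∃ h ∈ H, ∀ x, f x ≤ h x)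
    (hav : ∀ C : Set (KT 𝔠 → Set (KT 𝔠)), #C ≤ #H → (∀ F ∈ C, ∀ x, (F x).Countable) →
      ∃ g : KT 𝔠 → KT 𝔠, ∀ F ∈ C, #{x | g x ∈ F x} < 𝔠) :
    dNum (NeMod J) < bNum (NeMod meagerSets) :=
  (dNum_le_of_dom r hr hJ.empty_mem H le_rfl hdom).trans_lt (lt_bNum_of_avoid r hr hav)

end Pool.Agent.Results.MP_531aff_lc.StrictInequality
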