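import Pool.Agent.Lib.MP_531aff_lc.Guess

/-!
If `μ` is a regular cardinal or a cardinal of countable cofinality, `μ⁺ ≤ 𝔠` and some nonmeager
set has cardinality at most `μ⁺`, then `𝔟(≠*_I) ≤ 𝔡(≠*_J)` for all the ideals `I, J` in question.
-/

open Cardinal Set Ordinal

namespace Pool.Agent.Results.MP_531aff_lc.SuccessorAboveNon

open Pool.Agent.MP531

theorem result (I J : Set (Set (ℕ → ℕ))) (hI : IsNMK I) (hJ : IsNMK J)
    (μ : Cardinal.{0}) (hμ : μ.IsRegular ∨ μ.ord.cof = ℵ₀) (hc : Order.succ μ ≤ 𝔠)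
    (A : Set (ℕ → ℕ)) (hA : ¬ IsMeagre A) (hA' : #A ≤ Order.succ μ) :
    bNum (NeMod I) ≤ dNum (NeMod J) :=
  le_of_nonMeager_le hI.good hJ.good hJ.empty_mem hμ hc hA hA'

end Pool.Agent.Results.MP_531aff_lc.SuccessorAboveNon
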